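import Mathlib
import Pool.Agent.V1139.DC.FormsNice
import Pool.Agent.V1139.DC.FamDigits
import Pool.Agent.V1139.DC.Exp
import Pool.Agent.TH817.Z3.Z
import Pool.Agent.TH250.Z3.Arch
import Pool.Agent.TH647.NR.Zeta34
import Pool.Agent.TH456.TM.Close

/-!
# Digits of numbers formed from `ζ(3)`, `ζ(3) / π³`, Euler's constant and `π`, each in its own base

`N_b(x; L)` is the least order of a linear recurrence over `ℚ` for the first `L` digits of `x` in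
base `b`; it is bounded in `L` if and only if `x` is rational. We consider forms
`x = (B + a_1 y_1 + ⋯ + a_s y_s) / D` with integer coefficients and denominator at most `H`, where the
`y_j` are some of the numbers in question and arbitrary real numbers `t_1, …, t_r` in `[-T, T]`.

`Bound y n ν C`: for `n` forms with linearly independent coefficient vectors `a`, for all bases `b_i`
and all numbers `L_i` of digits some `i` satisfies
`ν L_i log b_i ≤ ∑_k (N_(b_k)(x_k; L_k) + C) log b_k + C log H`.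

`OneScale y n ν K δ`: at every scale `Λ`, of `n` such forms of height `exp (δ Λ)` one does not have the
property `Small`: `N_b(x; L) log b < ν Λ` for some base `b` and some `L` with `K log b ≤ Λ ≤ L log b`.

(1) `y = (ζ(3), t_1, …, t_r)`: `r + 1` forms, `ν = 1/4.68 - ε` and `ν = 1/(4.68 (r+1)) - ε`.
(2) `y = (ζ(3), π⁴, t_1, …, t_r)`: `r + 1` forms, with `2401` in place of `4.68`.
(3) `y = (ζ(3)/π³, π, 1/π³, t_1, …, t_r)`: `r + 2` forms, `ν = 1/2401 - ε` and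
    `ν = 1/(2401 (r+2)) - ε`.
(4) For `(ζ(3), γ)`: at every scale all the forms with the property `Small` are proportional modulo
    constants, `ν = 1/9.36 - ε`; so there is at most one rational `r` for which `γ + r ζ(3)` has it.
(5) The same for `(ζ(3), π⁴, γ)` and for `(ζ(3)/π³, π, 1/π³)`, `ν = 1/4802 - ε`.
(6) For every real `t ≠ 0` (for instance `ζ(3)`): at every scale there is at most one `k`, `|k| ≤ n`,
    such that some nonconstant polynomial `P(t π^k) / D` of degree at most `n` has the property `Small`,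
    with a `ν > 0` which depends only on `n`.
(7) The same for `t + a π` (for instance with Euler's constant `t`), `a` in a finite set of algebraic
    numbers.
-/

set_option autoImplicit false

namespace Pool.Agent.Results.MP_e48a95_nt.DigitsInOwnBases

open Finset Polynomial

/-- `ζ(3)` -/
noncomputable def zeta3 : ℝ := ∑' n : ℕ, 1 / ((n : ℝ) + 1) ^ 3

/-- the `i`-th digit of `x` after the point in base `b` -/
noncomputable def digit (b : ℕ) (x : ℝ) (i : ℕ) : ℤ := ⌊x * (b : ℝ) ^ i⌋ % (b : ℤ)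

/-- The terms `s_1, …, s_L` satisfy the linear recurrence
`s_(i+m) = c_0 s_i + … + c_(m-1) s_(i+m-1)` for `1 ≤ i ≤ L - m`. -/
def Recurrence (s : ℕ → ℤ) (c : ℕ → ℚ) (L m : ℕ) : Prop :=
  ∀ i : ℕ, 1 ≤ i → i + m ≤ L → (s (i + m) : ℚ) = ∑ j ∈ range m, c j * (s (i + j) : ℚ)

/-- the linear complexity of the first `L` digits of `x` in base `b` -/
noncomputable def complexity (b : ℕ) (x : ℝ) (L : ℕ) : ℕ :=
  sInf {m | ∃ c : ℕ → ℚ, Recurrence (digit b x) c L m}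

/-- `x` has linear complexity less than `ν Λ / log b` at the scale `Λ` in some base `b` which is not
too large, for some number `L ≥ Λ / log b` of digits -/
def Small (ν K Λ x : ℝ) : Prop :=
  ∃ b L : ℕ, 2 ≤ b ∧ K * Real.log b ≤ Λ ∧ Λ ≤ L * Real.log b ∧
    complexity b x L * Real.log b < ν * Λ

/-- `(B + a_1 y_1 + … + a_s y_s) / D` -/
noncomputable def form {s : ℕ} (y : Fin s → ℝ) (B : ℤ) (a : Fin s → ℤ) (D : ℕ) : ℝ :=
  ((B : ℝ) + ∑ j, (a j : ℝ) * y j) / D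

/-- the coefficients and the denominator are at most `H` -/
def Low {s : ℕ} (H : ℝ) (B : ℤ) (a : Fin s → ℤ) (D : ℕ) : Prop :=
  |(B : ℝ)| ≤ H ∧ (∀ j, |(a j : ℝ)| ≤ H) ∧ 1 ≤ D ∧ (D : ℝ) ≤ H

/-- `n` linearly independent forms, each in its own base -/
def Bound {s : ℕ} (y : Fin s → ℝ) (n : ℕ) (ν C : ℝ) : Prop :=
  ∀ (B : Fin n → ℤ) (a : Fin n → Fin s → ℤ) (D : Fin n → ℕ) (H : ℝ), 1 ≤ H →
    LinearIndependent ℤ a → (∀ i, Low H (B i) (a i) (D i)) →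
    ∀ b L : Fin n → ℕ, (∀ i, 2 ≤ b i) → ∃ i, ν * (L i * Real.log (b i)) ≤
      ∑ k, ((complexity (b k) (form y (B k) (a k) (D k)) (L k) : ℝ) + C) * Real.log (b k) +
        C * Real.log H

/-- `n` linearly independent forms at one scale -/
def OneScale {s : ℕ} (y : Fin s → ℝ) (n : ℕ) (ν K δ : ℝ) : Prop :=
  ∀ (Λ : ℝ) (B : Fin n → ℤ) (a : Fin n → Fin s → ℤ) (D : Fin n → ℕ),
    LinearIndependent ℤ a → (∀ i, Low (Real.exp (δ * Λ)) (B i) (a i) (D i)) →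
    ∃ i, ¬ Small ν K Λ (form y (B i) (a i) (D i))

/-- at every scale all forms of small linear complexity are proportional modulo constants -/
def OneDirection {s : ℕ} (y : Fin s → ℝ) (ν K δ : ℝ) : Prop :=
  ∀ (Λ : ℝ) (B B' : ℤ) (a a' : Fin s → ℤ) (D D' : ℕ), Low (Real.exp (δ * Λ)) B a D →
    Low (Real.exp (δ * Λ)) B' a' D' → Small ν K Λ (form y B a D) →
    Small ν K Λ (form y B' a' D') → ∀ i j, a i * a' j = a j * a' i

/-- `P / D` is nonconstant, of degree at most `n`, with coefficients and denominator at most `H` -/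
def LowPoly (n : ℕ) (H : ℝ) (P : ℤ[X]) (D : ℕ) : Prop :=
  0 < P.natDegree ∧ P.natDegree ≤ n ∧ (∀ i, |(P.coeff i : ℝ)| ≤ H) ∧ 1 ≤ D ∧ (D : ℝ) ≤ H

theorem meas3 : ∃ c : ℝ, 0 < c ∧
    Pool.Agent.W472.AC.Meas (Fin.cons 1 ![zeta3] : Fin (1 + 1) → ℝ) (368 / 100) c := by
  obtain ⟨c, hc, h⟩ := Pool.Agent.TH817.Z3.Z_pre Pool.Agent.TH250.Z3.AM
  have hz := Pool.Agent.V1139.DC.hz_of_exp zeta3 (468 / 100) (by norm_num) c hc
    (fun p q hq => h p q hq)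
  refine ⟨min c 1, by positivity, fun a ha H hH hb => ?_⟩
  have hne : a 0 ≠ 0 ∨ a 1 ≠ 0 := by
    by_contra hcon
    push Not at hcon
    apply ha
    funext i
    fin_cases i
    · exact hcon.1
    · exact hcon.2
  have h1 := hz (a 0) (a 1) hne H hH (hb 0) (hb 1)
  have h2 : ∑ j, (a j : ℝ) * (Fin.cons 1 ![zeta3] : Fin (1 + 1) → ℝ) j = a 0 + a 1 * zeta3 := by
    rw [Fin.sum_univ_two]
    simp
  rw [h2]
  have h3 : ((468 : ℝ) / 100) - 1 = 368 / 100 := by norm_num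
  rw [h3] at h1
  exact h1

theorem meas4 : ∃ c : ℝ, 0 < c ∧
    Pool.Agent.W472.AC.Meas (Fin.cons 1 ![zeta3, Real.pi ^ 4] : Fin (2 + 1) → ℝ) 2400 c :=
  Pool.Agent.TH647.NR.meas_zeta_pi4

theorem meas5 : ∃ c : ℝ, 0 < c ∧ Pool.Agent.W472.AC.Meas
    (![zeta3 / Real.pi ^ 3, Real.pi, 1 / Real.pi ^ 3] : Fin (2 + 1) → ℝ) 2400 c := by
  obtain ⟨c, hc, h⟩ := meas4
  have hπ := Real.pi_pos
  refine ⟨c / Real.pi ^ 3, by positivity, fun a ha H hH hb => ?_⟩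
  have h1 := h ![a 2, a 0, a 1] (by
    intro h0
    apply ha
    have e0 := congrFun h0 0
    have e1 := congrFun h0 1
    have e2 := congrFun h0 2
    funext i
    fin_cases i
    · simpa using e1
    · simpa using e2
    · simpa using e0) H hH (by
    intro j
    fin_cases j
    · exact hb 2
    · exact hb 0
    · exact hb 1)
  have e1 : ∑ j, ((![a 2, a 0, a 1] : Fin 3 → ℤ) j : ℝ) *
      (Fin.cons 1 ![zeta3, Real.pi ^ 4] : Fin (2 + 1) → ℝ) j =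
      a 2 + a 0 * zeta3 + a 1 * Real.pi ^ 4 := by
    rw [Fin.sum_univ_three]
    have h2 : (Fin.cons 1 ![zeta3, Real.pi ^ 4] : Fin (2 + 1) → ℝ) 2 = Real.pi ^ 4 := rfl
    have h3 : (Fin.cons 1 ![zeta3, Real.pi ^ 4] : Fin (2 + 1) → ℝ) 1 = zeta3 := rfl
    rw [h2, h3]
    simp
  have e2 : ∑ j, (a j : ℝ) * (![zeta3 / Real.pi ^ 3, Real.pi, 1 / Real.pi ^ 3] :
      Fin (2 + 1) → ℝ) j = (a 2 + a 0 * zeta3 + a 1 * Real.pi ^ 4) / Real.pi ^ 3 := by
    rw [Fin.sum_univ_three]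
    simp only [Matrix.cons_val_zero, Matrix.cons_val_one, Matrix.cons_val]
    field_simp
    ring
  rw [e1] at h1
  rw [e2, abs_div, abs_of_pos (by positivity : 0 < Real.pi ^ 3), ← mul_div_assoc]
  gcongr

lemma ht_le (P : ℤ[X]) (H : ℝ) (hH : 0 ≤ H) (h : ∀ i, |(P.coeff i : ℝ)| ≤ H) :
    (Pool.Agent.TH456.TM.ht P : ℝ) ≤ H := by
  rw [← Nat.le_floor_iff hH]
  refine Finset.sup_le fun i _ => ?_
  rw [Nat.le_floor_iff hH, Nat.cast_natAbs, Int.cast_abs]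
  exact h i

lemma abs_aeval (x : ℝ) (P : ℤ[X]) : |aeval x P| = ‖aeval (x : ℂ) P‖ := by
  have h : aeval (x : ℂ) P = ((aeval x P : ℝ) : ℂ) :=
    aeval_algebraMap_apply ℂ x P
  rw [h, Complex.norm_real, Real.norm_eq_abs]

/-- **Digits in own bases.** -/
theorem result :
    -- (1)
    (∀ (r : ℕ) (T ε : ℝ), 0 ≤ T → 0 < ε →
      (∃ C : ℝ, 0 < C ∧ ∀ t : Fin r → ℝ, (∀ k, |t k| ≤ T) →
        Bound (Fin.append ![zeta3] t) (r + 1) (1 / (468 / 100) - ε) C) ∧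
      (∃ K δ : ℝ, 0 < K ∧ 0 < δ ∧ ∀ t : Fin r → ℝ, (∀ k, |t k| ≤ T) →
        OneScale (Fin.append ![zeta3] t) (r + 1) (1 / ((468 / 100) * ((r : ℝ) + 1)) - ε) K δ)) ∧
    -- (2)
    (∀ (r : ℕ) (T ε : ℝ), 0 ≤ T → 0 < ε →
      (∃ C : ℝ, 0 < C ∧ ∀ t : Fin r → ℝ, (∀ k, |t k| ≤ T) →
        Bound (Fin.append ![zeta3, Real.pi ^ 4] t) (r + 1) (1 / 2401 - ε) C) ∧
      (∃ K δ : ℝ, 0 < K ∧ 0 < δ ∧ ∀ t : Fin r → ℝ, (∀ k, |t k| ≤ T) →
        OneScale (Fin.append ![zeta3, Real.pi ^ 4] t) (r + 1) (1 / (2401 * ((r : ℝ) + 1)) - ε)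
          K δ)) ∧
    -- (3)
    (∀ (r : ℕ) (T ε : ℝ), 1 ≤ T → 0 < ε →
      (∃ C : ℝ, 0 < C ∧ ∀ t : Fin r → ℝ, (∀ k, |t k| ≤ T) →
        Bound (Fin.append ![zeta3 / Real.pi ^ 3, Real.pi, 1 / Real.pi ^ 3] t) (r + 2)
          (1 / 2401 - ε) C) ∧
      (∃ K δ : ℝ, 0 < K ∧ 0 < δ ∧ ∀ t : Fin r → ℝ, (∀ k, |t k| ≤ T) →
        OneScale (Fin.append ![zeta3 / Real.pi ^ 3, Real.pi, 1 / Real.pi ^ 3] t) (r + 2)
          (1 / (2401 * ((r : ℝ) + 2)) - ε) K δ)) ∧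
    -- (4)
    (∀ ε : ℝ, 0 < ε → ∃ K δ : ℝ, 0 < K ∧ 0 < δ ∧
      OneDirection ![zeta3, Real.eulerMascheroniConstant] (1 / (936 / 100) - ε) K δ) ∧
    -- (5)
    (∀ ε : ℝ, 0 < ε → ∃ K δ : ℝ, 0 < K ∧ 0 < δ ∧
      OneDirection ![zeta3, Real.pi ^ 4, Real.eulerMascheroniConstant] (1 / 4802 - ε) K δ ∧
      OneDirection ![zeta3 / Real.pi ^ 3, Real.pi, 1 / Real.pi ^ 3] (1 / 4802 - ε) K δ) ∧
    -- (6)
    (∀ n : ℕ, ∃ ν : ℝ, 0 < ν ∧ ∀ t : ℝ, t ≠ 0 → ∃ K δ : ℝ, 0 < K ∧ 0 < δ ∧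
      ∀ j k : ℤ, |j| ≤ n → |k| ≤ n → j ≠ k → ∀ (Λ : ℝ) (P Q : ℤ[X]) (D E : ℕ),
        LowPoly n (Real.exp (δ * Λ)) P D → LowPoly n (Real.exp (δ * Λ)) Q E →
        ¬ (Small ν K Λ (aeval (t * Real.pi ^ j) P / D) ∧
          Small ν K Λ (aeval (t * Real.pi ^ k) Q / E))) ∧
    -- (7)
    (∀ (n : ℕ) (S : Finset ℝ), (∀ a ∈ S, IsAlgebraic ℚ a) → ∃ ν : ℝ, 0 < ν ∧
      ∀ T : ℝ, ∃ K δ : ℝ, 0 < K ∧ 0 < δ ∧ ∀ t : ℝ, |t| ≤ T →
      ∀ a ∈ S, ∀ b ∈ S, a ≠ b → ∀ (Λ : ℝ) (P Q : ℤ[X]) (D E : ℕ),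
        LowPoly n (Real.exp (δ * Λ)) P D → LowPoly n (Real.exp (δ * Λ)) Q E →
        ¬ (Small ν K Λ (aeval (t + a * Real.pi) P / D) ∧
          Small ν K Λ (aeval (t + b * Real.pi) Q / E))) := by
  have hγ : |Real.eulerMascheroniConstant| ≤ 1 := by
    have h1 := Real.one_half_lt_eulerMascheroniConstant
    have h2 := Real.eulerMascheroniConstant_lt_two_thirds
    rw [abs_of_pos (by linarith)]
    linarith
  have p1 : ∀ (r : ℕ) (T ε : ℝ), 0 ≤ T → 0 < ε →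
      (∃ C : ℝ, 0 < C ∧ ∀ t : Fin r → ℝ, (∀ k, |t k| ≤ T) →
        Bound (Fin.append ![zeta3] t) (r + 1) (1 / (468 / 100) - ε) C) ∧
      (∃ K δ : ℝ, 0 < K ∧ 0 < δ ∧ ∀ t : Fin r → ℝ, (∀ k, |t k| ≤ T) →
        OneScale (Fin.append ![zeta3] t) (r + 1) (1 / ((468 / 100) * ((r : ℝ) + 1)) - ε) K δ) := by
    intro r T ε hT hε
    obtain ⟨c, hc, h⟩ := meas3
    have h1 := Pool.Agent.V1139.DC.nice_one ![zeta3] (368 / 100) c (by norm_num) hc h r T hT ε hε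
    have e : (368 : ℝ) / 100 + 1 = 468 / 100 := by norm_num
    rw [e] at h1
    exact h1
  have p2 : ∀ (r : ℕ) (T ε : ℝ), 0 ≤ T → 0 < ε →
      (∃ C : ℝ, 0 < C ∧ ∀ t : Fin r → ℝ, (∀ k, |t k| ≤ T) →
        Bound (Fin.append ![zeta3, Real.pi ^ 4] t) (r + 1) (1 / 2401 - ε) C) ∧
      (∃ K δ : ℝ, 0 < K ∧ 0 < δ ∧ ∀ t : Fin r → ℝ, (∀ k, |t k| ≤ T) →
        OneScale (Fin.append ![zeta3, Real.pi ^ 4] t) (r + 1) (1 / (2401 * ((r : ℝ) + 1)) - ε)
          K δ) := by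
    intro r T ε hT hε
    obtain ⟨c, hc, h⟩ := meas4
    have h1 := Pool.Agent.V1139.DC.nice_one ![zeta3, Real.pi ^ 4] 2400 c (by norm_num) hc h r T hT
      ε hε
    have e : (2400 : ℝ) + 1 = 2401 := by norm_num
    rw [e] at h1
    exact h1
  have p3 : ∀ (r : ℕ) (T ε : ℝ), 1 ≤ T → 0 < ε →
      (∃ C : ℝ, 0 < C ∧ ∀ t : Fin r → ℝ, (∀ k, |t k| ≤ T) →
        Bound (Fin.append ![zeta3 / Real.pi ^ 3, Real.pi, 1 / Real.pi ^ 3] t) (r + 2)
          (1 / 2401 - ε) C) ∧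
      (∃ K δ : ℝ, 0 < K ∧ 0 < δ ∧ ∀ t : Fin r → ℝ, (∀ k, |t k| ≤ T) →
        OneScale (Fin.append ![zeta3 / Real.pi ^ 3, Real.pi, 1 / Real.pi ^ 3] t) (r + 2)
          (1 / (2401 * ((r : ℝ) + 2)) - ε) K δ) := by
    intro r T ε hT hε
    obtain ⟨c, hc, h⟩ := meas5
    have h1 := Pool.Agent.V1139.DC.nice_elim
      ![zeta3 / Real.pi ^ 3, Real.pi, 1 / Real.pi ^ 3] 2400 c (by norm_num) hc h r T hT ε hε
    have e : (2400 : ℝ) + 1 = 2401 := by norm_num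
    rw [e] at h1
    exact h1
  refine ⟨p1, p2, p3, fun ε hε => ?_, fun ε hε => ?_, fun n => ?_, fun n S hS => ?_⟩
  · obtain ⟨-, K, δ, hK, hδ, h⟩ := p1 1 1 ε zero_le_one hε
    refine ⟨K, δ, hK, hδ, ?_⟩
    have h1 := h ![Real.eulerMascheroniConstant] (fun k => by fin_cases k; exact hγ)
    have e1 : Fin.append ![zeta3] ![Real.eulerMascheroniConstant] =
        ![zeta3, Real.eulerMascheroniConstant] := by
      funext i
      fin_cases i <;> rfl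
    have e2 : (1 : ℝ) / (468 / 100 * (((1 : ℕ) : ℝ) + 1)) = 1 / (936 / 100) := by norm_num
    rw [e1, e2] at h1
    exact Pool.Agent.V1139.DC.two_scale _ _ K δ h1
  · obtain ⟨-, K, δ, hK, hδ, h⟩ := p2 1 1 ε zero_le_one hε
    obtain ⟨-, K', δ', hK', hδ', h'⟩ := p3 0 1 ε le_rfl hε
    have h1 := h ![Real.eulerMascheroniConstant] (fun k => by fin_cases k; exact hγ)
    have h1' := h' ![] (fun k => k.elim0)
    have e1 : Fin.append ![zeta3, Real.pi ^ 4] ![Real.eulerMascheroniConstant] =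
        ![zeta3, Real.pi ^ 4, Real.eulerMascheroniConstant] := by
      funext i
      fin_cases i <;> rfl
    have e1' : Fin.append ![zeta3 / Real.pi ^ 3, Real.pi, 1 / Real.pi ^ 3] (![] : Fin 0 → ℝ) =
        ![zeta3 / Real.pi ^ 3, Real.pi, 1 / Real.pi ^ 3] := by
      funext i
      fin_cases i <;> rfl
    have e2 : (1 : ℝ) / (2401 * (((1 : ℕ) : ℝ) + 1)) = 1 / 4802 := by norm_num
    have e2' : (1 : ℝ) / (2401 * (((0 : ℕ) : ℝ) + 2)) = 1 / 4802 := by norm_num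
    rw [e1, e2] at h1
    rw [e1', e2'] at h1'
    have hdir := Pool.Agent.V1139.DC.two_scale _ _ K δ h1
    have hdir' := Pool.Agent.V1139.DC.two_scale _ _ K' δ' h1'
    have hKK : 0 < max K K' := lt_max_of_lt_left hK
    -- monotonicity in `K` and `δ`
    have mono : ∀ {s : ℕ} (y : Fin s → ℝ) (K₀ δ₀ : ℝ), 0 < K₀ → K₀ ≤ max K K' → min δ δ' ≤ δ₀ →
        (∀ (Λ : ℝ) (B B' : ℤ) (a a' : Fin s → ℤ) (D D' : ℕ),
          Pool.Agent.V1139.DC.Low (Real.exp (δ₀ * Λ)) B a D →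
          Pool.Agent.V1139.DC.Low (Real.exp (δ₀ * Λ)) B' a' D' →
          Pool.Agent.V1139.DC.Small (1 / 4802 - ε) K₀ Λ (Pool.Agent.V1139.DC.form y B a D) →
          Pool.Agent.V1139.DC.Small (1 / 4802 - ε) K₀ Λ (Pool.Agent.V1139.DC.form y B' a' D') →
          ∀ i j, a i * a' j = a j * a' i) →
        OneDirection y (1 / 4802 - ε) (max K K') (min δ δ') := by
      intro s y K₀ δ₀ hK₀ hKle hδle hd Λ B B' a a' D D' l1 l2 s1 s2
      have hΛ : 0 ≤ Λ := by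
        obtain ⟨b, L, hb, h1, -, -⟩ := s1
        have : 0 < Real.log b := Real.log_pos (by exact_mod_cast (by omega : 1 < b))
        exact le_trans (by positivity) h1
      have hexp : Real.exp (min δ δ' * Λ) ≤ Real.exp (δ₀ * Λ) :=
        Real.exp_le_exp.2 (mul_le_mul_of_nonneg_right hδle hΛ)
      have lm : ∀ {B : ℤ} {a : Fin s → ℤ} {D : ℕ}, Low (Real.exp (min δ δ' * Λ)) B a D →
          Pool.Agent.V1139.DC.Low (Real.exp (δ₀ * Λ)) B a D := by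
        rintro B a D ⟨l1, l2, l3, l4⟩
        exact ⟨l1.trans hexp, fun j => (l2 j).trans hexp, l3, l4.trans hexp⟩
      have sm : ∀ {x : ℝ}, Small (1 / 4802 - ε) (max K K') Λ x →
          Pool.Agent.V1139.DC.Small (1 / 4802 - ε) K₀ Λ x := by
        rintro x ⟨b, L, hb, h1, h2, h3⟩
        have : 0 < Real.log b := Real.log_pos (by exact_mod_cast (by omega : 1 < b))
        exact ⟨b, L, hb, le_trans (mul_le_mul_of_nonneg_right hKle this.le) h1, h2, h3⟩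
      exact hd Λ B B' a a' D D' (lm l1) (lm l2) (sm s1) (sm s2)
    exact ⟨max K K', min δ δ', hKK, lt_min hδ hδ', mono _ K δ hK (le_max_left _ _)
      (min_le_left _ _) hdir, mono _ K' δ' hK' (le_max_right _ _) (min_le_right _ _) hdir'⟩
  · have hπ := Pool.Agent.TH456.TM.measT_pi
    have hπ0 : (Real.pi : ℂ) ≠ 0 := by exact_mod_cast Real.pi_ne_zero
    obtain ⟨κ, hκ, h⟩ := Pool.Agent.TH456.TM.fam_mul (Finset.Icc (-(n : ℤ)) n)
      (fun k : ℤ => (Real.pi : ℂ) ^ k) (fun k _ => zpow_ne_zero k hπ0) (fun i _ j _ hij => by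
        rw [← zpow_sub₀ hπ0]
        exact Pool.Agent.TH456.TM.measT_zpow hπ _ (sub_ne_zero.2 hij.symm)) _ hπ n
    obtain ⟨ν, hν⟩ : ∃ ν : ℝ, ν = 1 / (κ + 1) := ⟨_, rfl⟩
    have hν0 : 0 < ν := by rw [hν]; positivity
    refine ⟨ν / 2, by positivity, fun t ht => ?_⟩
    obtain ⟨C, hC, hC1, -⟩ := h (t : ℂ) (by exact_mod_cast ht)
    obtain ⟨T, hT⟩ : ∃ T : ℝ, T = |t| * Real.pi ^ n := ⟨_, rfl⟩
    obtain ⟨K, δ, hK, hδ, hd⟩ := Pool.Agent.V1139.DC.pair_digits n κ hκ.le (ν / 2) (by positivity)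
      T C hC
    refine ⟨K, δ, hK, hδ, fun j k hj hk hjk Λ P Q D E hP hQ hcon => ?_⟩
    have hbound : ∀ k : ℤ, |k| ≤ n → |t * Real.pi ^ k| ≤ T := by
      intro k hk
      rw [hT, abs_mul, abs_of_pos (zpow_pos Real.pi_pos k)]
      apply mul_le_mul_of_nonneg_left _ (abs_nonneg _)
      rw [← zpow_natCast]
      apply zpow_le_zpow_right₀ (by linarith [Real.pi_gt_three])
      exact (le_abs_self k).trans hk
    have hmeas : ∀ P Q : ℤ[X], P ≠ 0 → Q ≠ 0 → P.natDegree ≤ n → Q.natDegree ≤ n → ∀ H : ℝ,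
        1 ≤ H → (∀ i, |(P.coeff i : ℝ)| ≤ H) → (∀ i, |(Q.coeff i : ℝ)| ≤ H) →
        C * H ^ (-κ) ≤ max |aeval (t * Real.pi ^ j) P| |aeval (t * Real.pi ^ k) Q| := by
      intro P Q hP hQ hPn hQn H hH hPH hQH
      have h1 := hC1 j (by rw [Finset.mem_Icc, ← abs_le]; exact hj) k
        (by rw [Finset.mem_Icc, ← abs_le]; exact hk) hjk P Q hP hQ hPn hQn H
        (ht_le P H (by linarith) hPH) (ht_le Q H (by linarith) hQH)
      rw [abs_aeval, abs_aeval]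
      push_cast
      exact h1
    have hν2 : ν / 2 = 1 / (κ + 1) - ν / 2 := by rw [← hν]; ring
    rw [hν2] at hcon
    exact hd _ _ (hbound j hj) (hbound k hk) hmeas Λ P Q D E hP.1 hQ.1 hP.2.1 hQ.2.1 hP.2.2.2.1
      hQ.2.2.2.1 hP.2.2.2.2 hQ.2.2.2.2 hP.2.2.1 hQ.2.2.1 hcon
  · have hπ := Pool.Agent.TH456.TM.measT_pi
    obtain ⟨κ, hκ, h⟩ := Pool.Agent.TH456.TM.fam_add S
      (fun a : ℝ => (a : ℂ) * Real.pi) (fun a ha b hb hab => by
        have e : (b : ℂ) * Real.pi - a * Real.pi = Real.pi * (((b - a : ℝ)) : ℂ) := by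
          push_cast; ring
        rw [e]
        refine Pool.Agent.TH456.TM.measT_mul_alg hπ _ ?_ ?_
        · have h1 : IsAlgebraic ℚ (b - a) := (hS b hb).sub (hS a ha)
          have h2 : IsAlgebraic ℤ (b - a) :=
            (IsFractionRing.isAlgebraic_iff ℤ ℚ ℝ).2 h1
          exact h2.algebraMap (A := ℂ)
        · exact_mod_cast sub_ne_zero.2 hab.symm) _ hπ n
    obtain ⟨ν, hν⟩ : ∃ ν : ℝ, ν = 1 / (κ + 1) := ⟨_, rfl⟩
    have hν0 : 0 < ν := by rw [hν]; positivity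
    refine ⟨ν / 2, by positivity, fun T => ?_⟩
    obtain ⟨C, hC, hC1⟩ := h T
    obtain ⟨T', hT'⟩ : ∃ T' : ℝ, T' = T + ∑ a ∈ S, |a * Real.pi| := ⟨_, rfl⟩
    obtain ⟨K, δ, hK, hδ, hd⟩ := Pool.Agent.V1139.DC.pair_digits n κ hκ.le (ν / 2) (by positivity)
      T' C hC
    refine ⟨K, δ, hK, hδ, fun t ht a ha b hb hab Λ P Q D E hP hQ hcon => ?_⟩
    have hbound : ∀ a ∈ S, |t + a * Real.pi| ≤ T' := by
      intro a ha
      rw [hT']
      have h1 := Finset.single_le_sum (f := fun a => |a * Real.pi|) (fun i _ => abs_nonneg _) ha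
      exact (abs_add_le _ _).trans (add_le_add ht h1)
    have hmeas : ∀ P Q : ℤ[X], P ≠ 0 → Q ≠ 0 → P.natDegree ≤ n → Q.natDegree ≤ n → ∀ H : ℝ,
        1 ≤ H → (∀ i, |(P.coeff i : ℝ)| ≤ H) → (∀ i, |(Q.coeff i : ℝ)| ≤ H) →
        C * H ^ (-κ) ≤ max |aeval (t + a * Real.pi) P| |aeval (t + b * Real.pi) Q| := by
      intro P Q hP hQ hPn hQn H hH hPH hQH
      have h1 := (hC1 (t : ℂ) (by rw [Complex.norm_real]; exact ht)).1 a ha b hb hab P Q hP hQ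
        hPn hQn H (ht_le P H (by linarith) hPH) (ht_le Q H (by linarith) hQH)
      rw [abs_aeval, abs_aeval]
      push_cast
      exact h1
    have hν2 : ν / 2 = 1 / (κ + 1) - ν / 2 := by rw [← hν]; ring
    rw [hν2] at hcon
    exact hd _ _ (hbound a ha) (hbound b hb) hmeas Λ P Q D E hP.1 hQ.1 hP.2.1 hQ.2.1 hP.2.2.2.1
      hQ.2.2.2.1 hP.2.2.2.2 hQ.2.2.2.2 hP.2.2.1 hQ.2.2.1 hcon

end Pool.Agent.Results.MP_e48a95_nt.DigitsInOwnBases
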