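import Mathlib
import Pool.Agent.TH456.TM.Close
import Pool.Agent.TH456.TM.AlgDep

set_option autoImplicit false

/-!
# `ζ(3)` and `ζ(3) / π³` are not both well approximated by algebraic numbers

It is known that at most one of the numbers `ζ(3)`, `ζ(3) / π³` is algebraic, and that at most one
of the numbers `γ + a π`, `a` algebraic, is algebraic. We prove quantitative forms.

* For every degree `D` and every finite family of numbers `t α_k π^k` (`α_k ≠ 0` algebraic,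
  `t ≠ 0` any complex number, for instance `ζ(3)`) there is an exponent `κ`, independent of `t`,
  such that two integer polynomials of degree at most `D` are never both smaller than `C H^(-κ)` at
  two different members of the family; and the near algebraic relations
  `|P(t α_k π^k)| ≤ height(P)^(-w)`, `w > κ`, with irreducible `P` of degree at most `D` and height
  at most `X`, of all members of the family together, are at most `log log X / log ρ + C`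
  in number, for every `ρ < w / κ`.
* The same for the families `t + a π`, `a` algebraic (for instance `t` is Euler's constant).
* If one of `ζ(3)`, `ζ(3) / π³` is algebraic, then the other one has a transcendence measure of
  polynomial type in every degree. So if one of the two numbers is a `U`-number (in particular
  if it is a Liouville number), then both are transcendental.
-/

namespace Pool.Agent.Results.MP_e48a95_nt.JointMeasures

open Polynomial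

/-- the largest absolute value of a coefficient of `P` -/
noncomputable def height (P : ℤ[X]) : ℕ := P.support.sup fun i => (P.coeff i).natAbs

/-- the irreducible integer polynomials of degree at most `D` with positive leading coefficient -/
def Irred (D : ℕ) : Set ℤ[X] := {P | Irreducible P ∧ P.natDegree ≤ D ∧ 0 < P.leadingCoeff}

/-- The near algebraic relations of the members `v i`, `i ∈ S`, of a family: the pairs `(i, P)`, `P`
irreducible of degree at most `D` and height at most `Y`, with `|P(v i)| ≤ height(P)^(-w)`. -/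
def Near {ι : Type} (S : Finset ι) (v : ι → ℂ) (D : ℕ) (w Y : ℝ) : Set (ι × ℤ[X]) :=
  {p | p.1 ∈ S ∧ p.2 ∈ Irred D ∧ (height p.2 : ℝ) ≤ Y ∧
    ‖aeval (v p.1) p.2‖ ≤ (height p.2 : ℝ) ^ (-w)}

/-- The family `v i`, `i ∈ S`, has no common good algebraic approximations of degree at most `D`:
two polynomials are not both small at two different members, and the near algebraic relations of
all the members are sparse. -/
structure Joint {ι : Type} (S : Finset ι) (v : ι → ℂ) (D : ℕ) (κ : ℝ) : Prop where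
  /-- the joint measure -/
  joint : ∃ C : ℝ, 0 < C ∧ ∀ i ∈ S, ∀ j ∈ S, i ≠ j → ∀ P Q : ℤ[X], P ≠ 0 → Q ≠ 0 →
    P.natDegree ≤ D → Q.natDegree ≤ D →
    C * (max (height P : ℝ) (height Q)) ^ (-κ) ≤ max ‖aeval (v i) P‖ ‖aeval (v j) Q‖
  /-- sparsity of the near relations -/
  sparse : ∀ w ρ : ℝ, 1 < ρ → ρ < w / κ → ∃ C : ℝ, ∀ Y : ℝ, 3 ≤ Y →
    (Near S v D w Y).Finite ∧
    ((Near S v D w Y).ncard : ℝ) ≤ Real.log (Real.log Y) / Real.log ρ + C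

/-- `x` has a transcendence measure of polynomial type in every degree; in particular `x` is
transcendental and is not a `U`-number -/
def HasMeasure (x : ℂ) : Prop :=
  ∀ D : ℕ, ∃ κ c : ℝ, 0 < c ∧ ∀ P : ℤ[X], P ≠ 0 → P.natDegree ≤ D →
    c * (height P : ℝ) ^ (-κ) ≤ ‖aeval x P‖

/-- `ζ(3) = ∑ 1 / n³` -/
noncomputable def zeta3 : ℝ := ∑' n : ℕ, 1 / ((n : ℝ) + 1) ^ 3

open Pool.Agent.TH456.TM

lemma algZ {a : ℂ} (h : IsAlgebraic ℚ a) : IsAlgebraic ℤ a :=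
  (IsFractionRing.isAlgebraic_iff ℤ ℚ ℂ).2 h

lemma hasMeasure_of {x : ℂ} (h : MeasT x) : HasMeasure x := by
  intro D
  obtain ⟨κ, c, hκ, hc, h⟩ := h D
  refine ⟨κ, c, hc, fun P hP hPD => ?_⟩
  have h1 := h P hP hPD (ht P) (ht_pos P hP) (le_ht P)
  have h2 : (1 : ℝ) ≤ ht P := ht_pos P hP
  have h3 : (0 : ℝ) < ht P := by linarith
  have h9 : (ht P : ℝ) ^ (-κ) * (ht P : ℝ) ^ κ = 1 := by rw [← Real.rpow_add h3]; simp
  have h4 : (0 : ℝ) < (ht P : ℝ) ^ (-κ) := by positivity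
  calc c * (ht P : ℝ) ^ (-κ) ≤ ((ht P : ℝ) ^ κ * ‖aeval x P‖) * (ht P : ℝ) ^ (-κ) := by gcongr
    _ = ((ht P : ℝ) ^ (-κ) * (ht P : ℝ) ^ κ) * ‖aeval x P‖ := by ring
    _ = _ := by rw [h9, one_mul]

lemma joint_of {ι : Type} (S : Finset ι) (v : ι → ℂ) (D : ℕ) (κ C : ℝ) (hκ : 0 < κ) (hC : 0 < C)
    (h1 : ∀ i ∈ S, ∀ j ∈ S, i ≠ j → ∀ P Q : ℤ[X], P ≠ 0 → Q ≠ 0 → P.natDegree ≤ D →
        Q.natDegree ≤ D → ∀ H : ℝ, (ht P : ℝ) ≤ H → (ht Q : ℝ) ≤ H →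
        C * H ^ (-κ) ≤ max ‖aeval (v i) P‖ ‖aeval (v j) Q‖)
    (h2 : ∀ i ∈ S, ∀ P ∈ I1 D, ∀ Q ∈ I1 D, P ≠ Q → ∀ H : ℝ, (ht P : ℝ) ≤ H → (ht Q : ℝ) ≤ H →
        C * H ^ (-κ) ≤ max ‖aeval (v i) P‖ ‖aeval (v i) Q‖) : Joint S v D κ := by
  classical
  refine ⟨⟨C, hC, fun i hi j hj hij P Q hP hQ hPD hQD =>
    h1 i hi j hj hij P Q hP hQ hPD hQD _ (le_max_left _ _) (le_max_right _ _)⟩, ?_⟩
  intro w ρ hρ hρw
  have hcore : ∃ C : ℝ, 0 < C ∧ ∀ i ∈ S, ∀ j ∈ S, ∀ P ∈ I1 D, ∀ Q ∈ I1 D, (i, P) ≠ (j, Q) →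
      ∀ H : ℝ, (ht P : ℝ) ≤ H → (ht Q : ℝ) ≤ H →
        C * H ^ (-κ) ≤ max ‖aeval (v i) P‖ ‖aeval (v j) Q‖ := by
    refine ⟨C, hC, ?_⟩
    intro i hi j hj P hP Q hQ hne H hPH hQH
    by_cases hij : i = j
    · subst hij
      have hPQ : P ≠ Q := fun h => hne (by rw [h])
      exact h2 i hi P hP Q hQ hPQ H hPH hQH
    · exact h1 i hi j hj hij P Q hP.1.ne_zero hQ.1.ne_zero hP.2.1 hQ.2.1 H hPH hQH
  obtain ⟨C', h⟩ := sparse_fam S v D κ hκ hcore w ρ hρ hρw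
  refine ⟨C', fun Y hY => ?_⟩
  have e : Near S v D w Y = {p ∈ NearF S v D w | (ht p.2 : ℝ) ≤ Y} := by
    ext p
    constructor
    · rintro ⟨a, b, c, d⟩
      exact ⟨⟨a, b, d⟩, c⟩
    · rintro ⟨⟨a, b, d⟩, c⟩
      exact ⟨a, b, c, d⟩
  rw [e]
  exact h Y hY

lemma pi_ne : (Real.pi : ℂ) ≠ 0 := Complex.ofReal_ne_zero.2 Real.pi_ne_zero

theorem mul_family (D : ℕ) (S : Finset ℤ) (α : ℤ → ℂ)
    (hα : ∀ k ∈ S, IsAlgebraic ℚ (α k) ∧ α k ≠ 0) :
    ∃ κ : ℝ, 0 < κ ∧ ∀ t : ℂ, t ≠ 0 →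
      Joint S (fun k => t * (α k * (Real.pi : ℂ) ^ k)) D κ := by
  have hpi := measT_pi
  have hu : ∀ i ∈ S, ∀ j ∈ S, i ≠ j →
      MeasT (α j * (Real.pi : ℂ) ^ j / (α i * (Real.pi : ℂ) ^ i)) := by
    intro i hi j hj hij
    have e : α j * (Real.pi : ℂ) ^ j / (α i * (Real.pi : ℂ) ^ i) =
        (Real.pi : ℂ) ^ (j - i) * (α j / α i) := by
      rw [zpow_sub₀ pi_ne]
      have h1 := (hα i hi).2
      have h2 : (Real.pi : ℂ) ^ i ≠ 0 := zpow_ne_zero _ pi_ne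
      field_simp
    rw [e]
    refine measT_mul_alg (measT_zpow hpi (j - i) (sub_ne_zero.2 (Ne.symm hij))) _ (algZ ?_)
      (div_ne_zero (hα j hj).2 (hα i hi).2)
    rw [div_eq_mul_inv]
    exact (hα j hj).1.mul (hα i hi).1.inv
  obtain ⟨κ, hκ, h⟩ := fam_mul S (fun k => α k * (Real.pi : ℂ) ^ k)
    (fun k hk => mul_ne_zero (hα k hk).2 (zpow_ne_zero _ pi_ne)) hu (Real.pi : ℂ) hpi D
  refine ⟨κ, hκ, fun t ht => ?_⟩
  obtain ⟨C, hC, h1, h2⟩ := h t ht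
  exact joint_of S _ D κ C hκ hC h1 h2

theorem add_family (D : ℕ) (S : Finset ℂ) (hα : ∀ a ∈ S, IsAlgebraic ℚ a) :
    ∃ κ : ℝ, 0 < κ ∧ ∀ t : ℂ, Joint S (fun a => t + a * (Real.pi : ℂ)) D κ := by
  have hpi := measT_pi
  have hu : ∀ i ∈ S, ∀ j ∈ S, i ≠ j → MeasT (j * (Real.pi : ℂ) - i * (Real.pi : ℂ)) := by
    intro i hi j hj hij
    have e : j * (Real.pi : ℂ) - i * (Real.pi : ℂ) = (Real.pi : ℂ) * (j - i) := by ring
    rw [e]
    exact measT_mul_alg hpi _ (algZ ((hα j hj).sub (hα i hi))) (sub_ne_zero.2 (Ne.symm hij))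
  obtain ⟨κ, hκ, h⟩ := fam_add S (fun a : ℂ => a * (Real.pi : ℂ)) hu (Real.pi : ℂ) hpi D
  refine ⟨κ, hκ, fun t => ?_⟩
  obtain ⟨C, hC, h⟩ := h ‖t‖
  obtain ⟨h1, h2⟩ := h t le_rfl
  exact joint_of S _ D κ C hκ hC h1 h2

lemma zeta3_pos : 0 < zeta3 := by
  have h : Summable fun n : ℕ => 1 / ((n : ℝ) + 1) ^ 3 := by
    have := (summable_nat_add_iff 1).2 (Real.summable_one_div_nat_pow.2 (by norm_num : 1 < 3))
    simpa using this
  exact h.tsum_pos (fun n => by positivity) 0 (by norm_num)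

lemma abs_aeval (x : ℝ) (P : ℤ[X]) : |aeval x P| = ‖aeval (x : ℂ) P‖ := by
  have h : aeval (x : ℂ) P = ((aeval x P : ℝ) : ℂ) :=
    aeval_algebraMap_apply ℂ x P
  rw [h, Complex.norm_real, Real.norm_eq_abs]

lemma alg_real {x : ℝ} : IsAlgebraic ℚ (x : ℂ) ↔ IsAlgebraic ℚ x :=
  isAlgebraic_algebraMap_iff (algebraMap ℝ ℂ).injective

theorem two_zeta (D : ℕ) : ∃ κ C : ℝ, 0 < κ ∧ 0 < C ∧ ∀ P Q : ℤ[X], P ≠ 0 → Q ≠ 0 →
    P.natDegree ≤ D → Q.natDegree ≤ D →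
    C * (max (height P : ℝ) (height Q)) ^ (-κ) ≤
      max |aeval zeta3 P| |aeval (zeta3 / Real.pi ^ 3) Q| := by
  obtain ⟨κ, hκ, h⟩ := mul_family D {0, -3} (fun _ => 1)
    (fun k _ => ⟨isAlgebraic_one, one_ne_zero⟩)
  obtain ⟨⟨C, hC, h⟩, -⟩ := h (zeta3 : ℂ) (Complex.ofReal_ne_zero.2 zeta3_pos.ne')
  refine ⟨κ, C, hκ, hC, fun P Q hP hQ hPD hQD => ?_⟩
  have h1 := h 0 (by simp) (-3) (by simp) (by norm_num) P Q hP hQ hPD hQD
  have e1 : (zeta3 : ℂ) * (1 * (Real.pi : ℂ) ^ (0 : ℤ)) = ((zeta3 : ℝ) : ℂ) := by simp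
  have e2 : (zeta3 : ℂ) * (1 * (Real.pi : ℂ) ^ (-3 : ℤ)) = ((zeta3 / Real.pi ^ 3 : ℝ) : ℂ) := by
    rw [one_mul, zpow_neg, ← div_eq_mul_inv]
    push_cast
    norm_cast
  rw [e1, e2, ← abs_aeval, ← abs_aeval] at h1
  exact h1

theorem two_gamma (D : ℕ) (a b : ℝ) (ha : IsAlgebraic ℚ a) (hb : IsAlgebraic ℚ b) (hab : a ≠ b) :
    ∃ κ C : ℝ, 0 < κ ∧ 0 < C ∧ ∀ P Q : ℤ[X], P ≠ 0 → Q ≠ 0 →
    P.natDegree ≤ D → Q.natDegree ≤ D →
    C * (max (height P : ℝ) (height Q)) ^ (-κ) ≤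
      max |aeval (Real.eulerMascheroniConstant + a * Real.pi) P|
        |aeval (Real.eulerMascheroniConstant + b * Real.pi) Q| := by
  obtain ⟨κ, hκ, h⟩ := add_family D {(a : ℂ), (b : ℂ)} (fun k hk => by
    rw [Finset.mem_insert, Finset.mem_singleton] at hk
    rcases hk with rfl | rfl
    · exact alg_real.2 ha
    · exact alg_real.2 hb)
  obtain ⟨⟨C, hC, h⟩, -⟩ := h (Real.eulerMascheroniConstant : ℂ)
  refine ⟨κ, C, hκ, hC, fun P Q hP hQ hPD hQD => ?_⟩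
  have h1 := h (a : ℂ) (by simp) (b : ℂ) (by simp) (by exact_mod_cast hab) P Q hP hQ hPD hQD
  have e : ∀ c : ℝ, (Real.eulerMascheroniConstant : ℂ) + (c : ℂ) * (Real.pi : ℂ) =
      ((Real.eulerMascheroniConstant + c * Real.pi : ℝ) : ℂ) := fun c => by push_cast; rfl
  rw [e, e, ← abs_aeval, ← abs_aeval] at h1
  exact h1

theorem measure_other :
    (IsAlgebraic ℚ zeta3 → HasMeasure ((zeta3 / Real.pi ^ 3 : ℝ) : ℂ)) ∧
    (IsAlgebraic ℚ (zeta3 / Real.pi ^ 3) → HasMeasure ((zeta3 : ℝ) : ℂ)) := by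
  have hpi := measT_pi
  constructor
  · intro h
    apply hasMeasure_of
    have e : ((zeta3 / Real.pi ^ 3 : ℝ) : ℂ) = (Real.pi : ℂ) ^ (-3 : ℤ) * (zeta3 : ℂ) := by
      rw [zpow_neg, mul_comm, ← div_eq_mul_inv]
      push_cast
      norm_cast
    rw [e]
    exact measT_mul_alg (measT_zpow hpi (-3) (by norm_num)) _ (algZ (alg_real.2 h))
      (Complex.ofReal_ne_zero.2 zeta3_pos.ne')
  · intro h
    apply hasMeasure_of
    have e : ((zeta3 : ℝ) : ℂ) = (Real.pi : ℂ) ^ (3 : ℤ) * ((zeta3 / Real.pi ^ 3 : ℝ) : ℂ) := by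
      have h2 : (zeta3 : ℝ) = Real.pi ^ 3 * (zeta3 / Real.pi ^ 3) := by
        have := Real.pi_ne_zero
        field_simp
      conv_lhs => rw [h2]
      push_cast
      norm_cast
    rw [e]
    refine measT_mul_alg (measT_zpow hpi 3 (by norm_num)) _ (algZ (alg_real.2 h)) ?_
    exact Complex.ofReal_ne_zero.2 (div_ne_zero zeta3_pos.ne' (pow_ne_zero _ Real.pi_ne_zero))

/-- **`ζ(3)` and `ζ(3) / π³` are not both well approximated by algebraic numbers.** See the text at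
the beginning of the file. -/
theorem result :
    (∀ D : ℕ, ∃ κ C : ℝ, 0 < κ ∧ 0 < C ∧ ∀ P Q : ℤ[X], P ≠ 0 → Q ≠ 0 →
      P.natDegree ≤ D → Q.natDegree ≤ D →
      C * (max (height P : ℝ) (height Q)) ^ (-κ) ≤
        max |aeval zeta3 P| |aeval (zeta3 / Real.pi ^ 3) Q|) ∧
    (∀ D : ℕ, ∀ a b : ℝ, IsAlgebraic ℚ a → IsAlgebraic ℚ b → a ≠ b →
      ∃ κ C : ℝ, 0 < κ ∧ 0 < C ∧ ∀ P Q : ℤ[X], P ≠ 0 → Q ≠ 0 →
      P.natDegree ≤ D → Q.natDegree ≤ D →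
      C * (max (height P : ℝ) (height Q)) ^ (-κ) ≤
        max |aeval (Real.eulerMascheroniConstant + a * Real.pi) P|
          |aeval (Real.eulerMascheroniConstant + b * Real.pi) Q|) ∧
    (IsAlgebraic ℚ zeta3 → HasMeasure ((zeta3 / Real.pi ^ 3 : ℝ) : ℂ)) ∧
    (IsAlgebraic ℚ (zeta3 / Real.pi ^ 3) → HasMeasure ((zeta3 : ℝ) : ℂ)) ∧
    (∀ (D : ℕ) (S : Finset ℤ) (α : ℤ → ℂ), (∀ k ∈ S, IsAlgebraic ℚ (α k) ∧ α k ≠ 0) →
      ∃ κ : ℝ, 0 < κ ∧ ∀ t : ℂ, t ≠ 0 → Joint S (fun k => t * (α k * (Real.pi : ℂ) ^ k)) D κ) ∧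
    (∀ (D : ℕ) (S : Finset ℂ), (∀ a ∈ S, IsAlgebraic ℚ a) →
      ∃ κ : ℝ, 0 < κ ∧ ∀ t : ℂ, Joint S (fun a => t + a * (Real.pi : ℂ)) D κ) :=
  ⟨two_zeta, fun D a b ha hb hab => two_gamma D a b ha hb hab, measure_other.1, measure_other.2,
    mul_family, add_family⟩

end Pool.Agent.Results.MP_e48a95_nt.JointMeasures
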