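import Pool.Agent.V11133.ZM.Meas

/-!
# A measure of linear independence for `1, ζ(3), π ^ 4` with exponent `145`
-/

set_option autoImplicit false

namespace Pool.Agent.Results.MP_e48a95_nt.MeasureZetaThreePiFourSharp

open Pool.Agent.TH647.NR Pool.Agent.V11133.ZM

/-- (1) the linear forms in `1, ζ(3), π ^ 4` with nonzero coefficient of `π ^ 4`;
(2) all nonzero linear forms in `1, ζ(3), π ^ 4`;
(3) the same divided by `π ^ 3`: all nonzero linear forms in `ζ(3) / π ^ 3, 1 / π ^ 3, π`;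
(4), (5) irrationality exponent at most `146` for `ζ(3) + s π ^ 4`, `s ≠ 0` rational, and for
`(ζ(3) + r) / π ^ 4`, `r` rational;
(6) linear forms in `1, ζ(3), π ^ 4` and `r` arbitrary real numbers. -/
theorem result :
    (∃ c : ℝ, 0 < c ∧ ∀ a b d : ℤ, d ≠ 0 →
      c / (max |(b : ℝ)| |(d : ℝ)|) ^ 145 ≤
        |(a : ℝ) + b * (∑' n : ℕ, 1 / ((n : ℝ) + 1) ^ 3) + d * Real.pi ^ 4|) ∧
    (∃ c : ℝ, 0 < c ∧ ∀ a b d : ℤ, ¬ (a = 0 ∧ b = 0 ∧ d = 0) →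
      c / (max (max |(a : ℝ)| |(b : ℝ)|) |(d : ℝ)|) ^ 145 ≤
        |(a : ℝ) + b * (∑' n : ℕ, 1 / ((n : ℝ) + 1) ^ 3) + d * Real.pi ^ 4|) ∧
    (∃ c : ℝ, 0 < c ∧ ∀ a b d : ℤ, ¬ (a = 0 ∧ b = 0 ∧ d = 0) →
      c / (max (max |(a : ℝ)| |(b : ℝ)|) |(d : ℝ)|) ^ 145 ≤
        |b * ((∑' n : ℕ, 1 / ((n : ℝ) + 1) ^ 3) / Real.pi ^ 3) + a / Real.pi ^ 3 + d * Real.pi|) ∧
    (∀ s : ℚ, s ≠ 0 → ∃ c : ℝ, 0 < c ∧ ∀ p q : ℤ, 0 < q →
      c / (q : ℝ) ^ 146 ≤ |(∑' n : ℕ, 1 / ((n : ℝ) + 1) ^ 3) + s * Real.pi ^ 4 - p / q|) ∧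
    (∀ r : ℚ, ∃ c : ℝ, 0 < c ∧ ∀ p q : ℤ, 0 < q →
      c / (q : ℝ) ^ 146 ≤ |((∑' n : ℕ, 1 / ((n : ℝ) + 1) ^ 3) + r) / Real.pi ^ 4 - p / q|) ∧
    (∀ r : ℕ, ∃ c : ℝ, 0 < c ∧ ∀ (t : Fin r → ℝ) (X : ℝ), 1 ≤ X →
      ∀ v : Fin (r + 1) → (Fin 3 → ℤ) × (Fin r → ℤ), LinearIndependent ℤ v →
        (∀ k, ‖v k‖ ≤ X) →
        ∃ k, c * X ^ (-(146 * (r : ℝ) + 145)) ≤
          |((v k).1 0 : ℝ) + (v k).1 1 * (∑' n : ℕ, 1 / ((n : ℝ) + 1) ^ 3) +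
            (v k).1 2 * Real.pi ^ 4 + ∑ j, ((v k).2 j : ℝ) * t j|) := by
  have hall : ∃ c : ℝ, 0 < c ∧ ∀ a b d : ℤ, ¬ (a = 0 ∧ b = 0 ∧ d = 0) →
      c / (max (max |(a : ℝ)| |(b : ℝ)|) |(d : ℝ)|) ^ 145 ≤
        |(a : ℝ) + b * (∑' n : ℕ, 1 / ((n : ℝ) + 1) ^ 3) + d * Real.pi ^ 4| := by
    obtain ⟨c, hc, h⟩ := Pool.Agent.V11133.ZM.meas_zeta_pi4
    refine ⟨c, hc, fun a b d h0 => ?_⟩
    have key : ∀ m : ℤ, m ≠ 0 → (1 : ℝ) ≤ |(m : ℝ)| := fun m hm => by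
      have : (1 : ℤ) ≤ |m| := Int.one_le_abs hm
      exact_mod_cast this
    obtain ⟨H, hH⟩ : ∃ H : ℝ, H = max (max |(a : ℝ)| |(b : ℝ)|) |(d : ℝ)| := ⟨_, rfl⟩
    have hH1 : 1 ≤ H := by
      rw [hH]
      by_cases ha : a = 0
      · by_cases hb : b = 0
        · exact (key d (fun hd => h0 ⟨ha, hb, hd⟩)).trans (le_max_right _ _)
        · exact (key b hb).trans ((le_max_right _ _).trans (le_max_left _ _))
      · exact (key a ha).trans ((le_max_left _ _).trans (le_max_left _ _))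
    have hH0 : 0 < H := by linarith
    have h1 := h ![a, b, d] (fun hcon => h0
      ⟨by simpa using congrFun hcon 0, by simpa using congrFun hcon 1, by simpa using congrFun hcon 2⟩)
      H hH1 (by
        intro i
        rw [hH]
        fin_cases i
        · exact (le_max_left _ _).trans (le_max_left _ _)
        · exact (le_max_right _ _).trans (le_max_left _ _)
        · exact le_max_right _ _)
    have hval : ∑ j, ((![a, b, d] : Fin (2 + 1) → ℤ) j : ℝ) *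
        (![1, ∑' n : ℕ, 1 / ((n : ℝ) + 1) ^ 3, Real.pi ^ 4] : Fin (2 + 1) → ℝ) j =
        (a : ℝ) + b * (∑' n : ℕ, 1 / ((n : ℝ) + 1) ^ 3) + d * Real.pi ^ 4 := by
      rw [Fin.sum_univ_three]
      simp
    rw [hval, show (145 : ℝ) = ((145 : ℕ) : ℝ) by norm_num, Real.rpow_natCast] at h1
    rw [← hH, div_le_iff₀ (by positivity), mul_comm]
    exact h1
  refine ⟨?_, hall, ?_, fun s hs => shift_exp s hs, fun r => quot_exp r, fun r => ?_⟩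
  · obtain ⟨c, hc, h⟩ := pi_d
    exact ⟨c, hc, fun a b d hd => h a b d hd _ (le_max_left _ _) (le_max_right _ _)⟩
  · obtain ⟨c, hc, h⟩ := hall
    have hpi : (0 : ℝ) < Real.pi ^ 3 := by positivity
    refine ⟨c / Real.pi ^ 3, by positivity, fun a b d hd => ?_⟩
    have h1 := h a b d hd
    have e1 : (b : ℝ) * ((∑' n : ℕ, 1 / ((n : ℝ) + 1) ^ 3) / Real.pi ^ 3) + a / Real.pi ^ 3 +
        d * Real.pi = ((a : ℝ) + b * (∑' n : ℕ, 1 / ((n : ℝ) + 1) ^ 3) + d * Real.pi ^ 4) /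
        Real.pi ^ 3 := by
      field_simp
      ring
    rw [e1, abs_div, abs_of_pos hpi, div_right_comm]
    exact div_le_div_of_nonneg_right h1 hpi.le
  · obtain ⟨c, hc, h⟩ := Pool.Agent.V11133.ZM.meas_zeta_pi4
    obtain ⟨c', hc', h'⟩ := rank_bound _ 145 c hc h r
    refine ⟨c', hc', fun t X hX v hv hvX => ?_⟩
    obtain ⟨k, hk⟩ := h' t X hX v hv hvX
    refine ⟨k, ?_⟩
    have e1 : linr (![1, ∑' n : ℕ, 1 / ((n : ℝ) + 1) ^ 3, Real.pi ^ 4] : Fin (2 + 1) → ℝ) t (v k) =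
        ((v k).1 0 : ℝ) + (v k).1 1 * (∑' n : ℕ, 1 / ((n : ℝ) + 1) ^ 3) +
            (v k).1 2 * Real.pi ^ 4 + ∑ j, ((v k).2 j : ℝ) * t j := by
      unfold linr
      rw [Fin.sum_univ_three]
      simp
    rw [e1] at hk
    refine le_trans (le_of_eq ?_) hk
    congr 2
    ring

end Pool.Agent.Results.MP_e48a95_nt.MeasureZetaThreePiFourSharp
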