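import Mathlib
import Pool.Agent.V11015.FS.Poly
import Pool.Agent.TH456.TM.AlgDep

/-!
# Finite-state prediction of the digits of `ζ(3)`, `ζ(3) / π³`, `γ`, `γ + a π`

A machine with finitely many states reads the digits of a number in some base one after the other and
announces before each digit a guess, which depends on its state only.

Let `t` be any real number, for instance `ζ(3)` or Euler's constant. At every scale at most one of the
numbers `α_k t π^k`, `k ∈ S` (`S` a finite set of integers, `α_k ≠ 0` real algebraic numbers, `t ≠ 0`), and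
at most one of the numbers `t + a π`, `a ∈ S` (`S` a finite set of real algebraic numbers), has a
nonconstant polynomial expression of bounded degree and moderate height with rational coefficients,
whose digits in some base are predicted by a small machine with few errors.
-/

set_option autoImplicit false

namespace Pool.Agent.Results.MP_e48a95_nt.PredictionSeveralNumbers

open Finset Pool.Agent Polynomial

/-- the `i`-th digit of `x` after the point in base `b` -/
noncomputable def digit (b : ℕ) (x : ℝ) (i : ℕ) : ℤ := ⌊x * (b : ℝ) ^ i⌋ % (b : ℤ)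

/-- A machine with the set of states `Q`: the transition function, the guess announced in each
state, and the initial state. -/
structure Machine (Q : Type) where
  next : Q → ℤ → Q
  guess : Q → ℤ
  start : Q

/-- The state of the machine after it has read the first `i` digits of `x` in base `b`. -/
noncomputable def Machine.state {Q : Type} (M : Machine Q) (b : ℕ) (x : ℝ) : ℕ → Q
  | 0 => M.start
  | i + 1 => M.next (M.state b x i) (digit b x (i + 1))

/-- The number of the wrong guesses for the first `n` digits of `x` in base `b`: the guess for the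
digit number `i + 1` is announced when the machine has read the first `i` digits. -/
noncomputable def Machine.errors {Q : Type} (M : Machine Q) (b : ℕ) (x : ℝ) (n : ℕ) : ℕ :=
  ((range n).filter (fun i => M.guess (M.state b x i) ≠ digit b x (i + 1))).card

theorem state_eq {Q : Type} (M : Machine Q) (b : ℕ) (x : ℝ) (i : ℕ) :
    M.state b x i = V60.FSP.st M.next (V60.FSP.dg b x) M.start 0 i := by
  induction i with
  | zero => rfl
  | succ i ih =>
    rw [V60.FSP.st_step, ← ih, Nat.zero_add]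
    rfl

theorem errors_eq {Q : Type} [Fintype Q] (M : Machine Q) (b : ℕ) (x : ℝ) (n : ℕ) :
    M.errors b x n = V60.FSP.err M.next M.guess (V60.FSP.dg b x) M.start 0 n := by
  unfold Machine.errors V60.FSP.err
  congr 1
  apply Finset.filter_congr
  intro i _
  rw [state_eq, Nat.zero_add]
  rfl

/-- `P` is a nonconstant integer polynomial of degree at most `n` with coefficients of absolute value at
most `H`, and `1 ≤ d ≤ H` -/
def Admissible (n : ℕ) (H : ℝ) (P : ℤ[X]) (d : ℕ) : Prop :=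
  0 < P.natDegree ∧ P.natDegree ≤ n ∧ (∀ i, |(P.coeff i : ℝ)| ≤ H) ∧ 1 ≤ d ∧ (d : ℝ) ≤ H

/-- The bound for the errors: if machines with `S` and `S'` states read the digits of `P(v) / d` in base
`b` and of `P'(w) / d'` in base `b'` (`P, P'` of degree at most `n` and height at most `H`), then they make
on the first `N` and `N'` digits together at least
`(log min (N log b, N' log b') - log (S log b + S' log b' + log H)) / log μ - C` wrong guesses. -/
def Bound (n : ℕ) (μ C v w : ℝ) : Prop :=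
  ∀ (P P' : ℤ[X]) (d d' : ℕ) (H : ℝ), 1 ≤ H → Admissible n H P d → Admissible n H P' d' →
    ∀ b b' : ℕ, 2 ≤ b → 2 ≤ b' →
    ∀ (Q Q' : Type) [Fintype Q] [Fintype Q'] (M : Machine Q) (M' : Machine Q') (N N' : ℕ),
    1 ≤ N → 1 ≤ N' →
    (Real.log (min (N * Real.log b) (N' * Real.log b')) -
      Real.log (Fintype.card Q * Real.log b + Fintype.card Q' * Real.log b' + Real.log H)) /
      Real.log μ - C ≤ (M.errors b (aeval v P / d) N + M'.errors b' (aeval w P' / d') N' : ℝ)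

/-- For some nonconstant polynomial `P` of degree at most `n` and height at most `H` and some `d ≤ H`, in
some base `b`, some machine with `S` states, `S log b ≤ σ`, makes less than `E` errors on the
first `N` digits of `P(v) / d` for some `N` with `N log b ≥ Λ`. -/
def Predicted (n : ℕ) (H Λ σ E v : ℝ) : Prop :=
  ∃ (P : ℤ[X]) (d b : ℕ) (Q : Type) (_ : Fintype Q) (M : Machine Q) (N : ℕ), Admissible n H P d ∧
    2 ≤ b ∧ Λ ≤ N * Real.log b ∧ Fintype.card Q * Real.log b ≤ σ ∧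
    (M.errors b (aeval v P / d) N : ℝ) < E

/-- the threshold -/
noncomputable def threshold (μ C H Λ σ : ℝ) : ℝ :=
  ((Real.log Λ - Real.log (2 * σ + Real.log H)) / Real.log μ - C) / 2

/-- `ζ(3) = ∑ 1 / n³` -/
noncomputable def zeta3 : ℝ := ∑' n : ℕ, 1 / ((n : ℝ) + 1) ^ 3

theorem bound_of_joint (n : ℕ) (κ c V : ℝ) (hκ : 0 < κ) (hc : 0 < c) (hV : 1 ≤ V) : ∃ C : ℝ,
    ∀ v w : ℝ, |v| ≤ V → |w| ≤ V → V11015.FS.JointAlg n κ c v w → Bound n (2 * (κ + 1)) C v w := by
  obtain ⟨C, _, h⟩ := V11015.FS.poly_bound n κ c V hκ hc hV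
  refine ⟨C, fun v w hv hw hJ P P' d d' H hH hP hP' b b' hb hb' Q Q' _ _ M M' N N' hN hN' => ?_⟩
  rw [errors_eq, errors_eq]
  exact h v w hv hw hJ P P' H hH hP.1 hP.2.1 hP'.1 hP'.2.1 hP.2.2.1 hP'.2.2.1 d d' hP.2.2.2.1
    hP'.2.2.2.1 hP.2.2.2.2 hP'.2.2.2.2 b b' hb hb' Q Q' M.next M.guess M.start M'.next M'.guess M'.start
    N N' hN hN'

theorem not_both {n : ℕ} {μ C v w : ℝ} (hμ : 1 < μ) (h : Bound n μ C v w) {H Λ σ : ℝ} (hH : 1 ≤ H)
    (hΛ : 0 < Λ) (hp : Predicted n H Λ σ (threshold μ C H Λ σ) v)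
    (hq : Predicted n H Λ σ (threshold μ C H Λ σ) w) : False := by
  obtain ⟨P, d, b, Q, inst, M, N, hP, hb, hN, hS, hM⟩ := hp
  obtain ⟨P', d', b', Q', inst', M', N', hP', hb', hN', hS', hM'⟩ := hq
  have hlb := V11015.FS.log_base_pos hb
  have hlb' := V11015.FS.log_base_pos hb'
  have hlμ := Real.log_pos hμ
  have hlH : 0 ≤ Real.log H := Real.log_nonneg hH
  have hN1 : 1 ≤ N := by
    rcases Nat.eq_zero_or_pos N with h | h
    · rw [h, Nat.cast_zero, zero_mul] at hN
      linarith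
    · exact h
  have hN1' : 1 ≤ N' := by
    rcases Nat.eq_zero_or_pos N' with h | h
    · rw [h, Nat.cast_zero, zero_mul] at hN'
      linarith
    · exact h
  have : Nonempty Q := ⟨M.start⟩
  have hSp : (0 : ℝ) < Fintype.card Q := by exact_mod_cast Fintype.card_pos (α := Q)
  have hSp' : (0 : ℝ) ≤ Fintype.card Q' := Nat.cast_nonneg _
  have h1 := h P P' d d' H hH hP hP' b b' hb hb' Q Q' M M' N N' hN1 hN1'
  have h2 : Real.log Λ ≤ Real.log (min (N * Real.log b) (N' * Real.log b')) :=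
    Real.log_le_log hΛ (le_min hN hN')
  have h3 : Real.log (Fintype.card Q * Real.log b + Fintype.card Q' * Real.log b' + Real.log H) ≤
      Real.log (2 * σ + Real.log H) := by
    apply Real.log_le_log
    · have := mul_nonneg hSp' hlb'.le
      have := mul_pos hSp hlb
      linarith
    · linarith
  have h4 : (Real.log Λ - Real.log (2 * σ + Real.log H)) / Real.log μ ≤
      (Real.log (min (N * Real.log b) (N' * Real.log b')) -
      Real.log (Fintype.card Q * Real.log b + Fintype.card Q' * Real.log b' + Real.log H)) /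
      Real.log μ := div_le_div_of_nonneg_right (by linarith) hlμ.le
  unfold threshold at hM hM'
  linarith

open Pool.Agent.TH456.TM

lemma algZ {a : ℂ} (h : IsAlgebraic ℚ a) : IsAlgebraic ℤ a :=
  (IsFractionRing.isAlgebraic_iff ℤ ℚ ℂ).2 h

lemma alg_real {x : ℝ} (h : IsAlgebraic ℚ x) : IsAlgebraic ℚ (x : ℂ) :=
  (isAlgebraic_algebraMap_iff (algebraMap ℝ ℂ).injective).2 h

lemma pi_ne : (Real.pi : ℂ) ≠ 0 := Complex.ofReal_ne_zero.2 Real.pi_ne_zero

lemma zeta3_pos : 0 < zeta3 := by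
  have h : Summable fun n : ℕ => 1 / ((n : ℝ) + 1) ^ 3 := by
    have := (summable_nat_add_iff 1).2 (Real.summable_one_div_nat_pow.2 (by norm_num : 1 < 3))
    simpa using this
  exact h.tsum_pos (fun n => by positivity) 0 (by norm_num)

theorem mul_family (n : ℕ) (S : Finset ℤ) (α : ℤ → ℝ)
    (hα : ∀ k ∈ S, IsAlgebraic ℚ (α k) ∧ α k ≠ 0) :
    ∃ μ : ℝ, 1 < μ ∧ ∀ t : ℝ, t ≠ 0 → ∃ C : ℝ, ∀ k ∈ S, ∀ l ∈ S, k ≠ l →
      Bound n μ C (t * (α k * Real.pi ^ k)) (t * (α l * Real.pi ^ l)) := by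
  have hpi := measT_pi
  have hu : ∀ i ∈ S, ∀ j ∈ S, i ≠ j →
      MeasT ((α j : ℂ) * (Real.pi : ℂ) ^ j / ((α i : ℂ) * (Real.pi : ℂ) ^ i)) := by
    intro i hi j hj hij
    have hi0 : (α i : ℂ) ≠ 0 := Complex.ofReal_ne_zero.2 (hα i hi).2
    have hj0 : (α j : ℂ) ≠ 0 := Complex.ofReal_ne_zero.2 (hα j hj).2
    have e : (α j : ℂ) * (Real.pi : ℂ) ^ j / ((α i : ℂ) * (Real.pi : ℂ) ^ i) =
        (Real.pi : ℂ) ^ (j - i) * ((α j : ℂ) / (α i : ℂ)) := by
      rw [zpow_sub₀ pi_ne]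
      have h2 : (Real.pi : ℂ) ^ i ≠ 0 := zpow_ne_zero _ pi_ne
      field_simp
    rw [e]
    refine measT_mul_alg (measT_zpow hpi (j - i) (sub_ne_zero.2 (Ne.symm hij))) _ (algZ ?_)
      (div_ne_zero hj0 hi0)
    rw [div_eq_mul_inv]
    exact (alg_real (hα j hj).1).mul (alg_real (hα i hi).1).inv
  obtain ⟨κ, hκ, h⟩ := fam_mul S (fun k => (α k : ℂ) * (Real.pi : ℂ) ^ k)
    (fun k hk => mul_ne_zero (Complex.ofReal_ne_zero.2 (hα k hk).2) (zpow_ne_zero _ pi_ne)) hu
    (Real.pi : ℂ) hpi n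
  refine ⟨2 * (κ + 1), by linarith, fun t ht0 => ?_⟩
  obtain ⟨c, hc, h1, -⟩ := h (t : ℂ) (Complex.ofReal_ne_zero.2 ht0)
  have hsum0 : ∀ i ∈ S, 0 ≤ |t * (α i * Real.pi ^ i)| := fun i _ => abs_nonneg _
  obtain ⟨C, hC⟩ := bound_of_joint n κ c (1 + ∑ k ∈ S, |t * (α k * Real.pi ^ k)|) hκ hc
    (by have := Finset.sum_nonneg hsum0; linarith)
  refine ⟨C, fun k hk l hl hkl => hC _ _ ?_ ?_ ?_⟩
  · have := Finset.single_le_sum hsum0 hk
    linarith
  · have := Finset.single_le_sum hsum0 hl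
    linarith
  · intro P Q hP hQ hPn hQn H hPH hQH
    have h2 := h1 k hk l hl hkl P Q hP hQ hPn hQn H hPH hQH
    have e1 : ∀ j : ℤ, (t : ℂ) * ((α j : ℂ) * (Real.pi : ℂ) ^ j) =
        ((t * (α j * Real.pi ^ j) : ℝ) : ℂ) := fun j => by push_cast; rfl
    rw [e1, e1, ← abs_aeval, ← abs_aeval] at h2
    exact h2

theorem add_family (n : ℕ) (S : Finset ℝ) (hα : ∀ a ∈ S, IsAlgebraic ℚ a) :
    ∃ μ : ℝ, 1 < μ ∧ ∀ T : ℝ, ∃ C : ℝ, ∀ t : ℝ, |t| ≤ T → ∀ a ∈ S, ∀ b ∈ S, a ≠ b →
      Bound n μ C (t + a * Real.pi) (t + b * Real.pi) := by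
  have hpi := measT_pi
  have hu : ∀ i ∈ S, ∀ j ∈ S, i ≠ j → MeasT ((j : ℂ) * (Real.pi : ℂ) - (i : ℂ) * (Real.pi : ℂ)) := by
    intro i hi j hj hij
    have e : (j : ℂ) * (Real.pi : ℂ) - (i : ℂ) * (Real.pi : ℂ) = (Real.pi : ℂ) * ((j : ℂ) - (i : ℂ)) := by ring
    rw [e]
    exact measT_mul_alg hpi _ (algZ ((alg_real (hα j hj)).sub (alg_real (hα i hi))))
      (sub_ne_zero.2 (by exact_mod_cast (Ne.symm hij)))
  obtain ⟨κ, hκ, h⟩ := fam_add S (fun a : ℝ => (a : ℂ) * (Real.pi : ℂ)) hu (Real.pi : ℂ) hpi n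
  refine ⟨2 * (κ + 1), by linarith, fun T => ?_⟩
  obtain ⟨c, hc, h⟩ := h T
  have hsum0 : ∀ i ∈ S, 0 ≤ |i * Real.pi| := fun i _ => abs_nonneg _
  obtain ⟨C, hC⟩ := bound_of_joint n κ c (1 + |T| + ∑ a ∈ S, |a * Real.pi|) hκ hc
    (by have := Finset.sum_nonneg hsum0; have := abs_nonneg T; linarith)
  refine ⟨C, fun t ht a ha b hb hab => hC _ _ ?_ ?_ ?_⟩
  · have h1 := Finset.single_le_sum hsum0 ha
    have h2 := abs_add_le t (a * Real.pi)
    have h3 := le_abs_self T
    linarith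
  · have h1 := Finset.single_le_sum hsum0 hb
    have h2 := abs_add_le t (b * Real.pi)
    have h3 := le_abs_self T
    linarith
  · intro P Q hP hQ hPn hQn H hPH hQH
    have h2 := (h (t : ℂ) (by rw [Complex.norm_real]; exact ht)).1 a ha b hb hab P Q hP hQ hPn hQn H hPH hQH
    have e1 : ∀ j : ℝ, (t : ℂ) + (j : ℂ) * (Real.pi : ℂ) = ((t + j * Real.pi : ℝ) : ℂ) :=
      fun j => by push_cast; rfl
    rw [e1, e1, ← abs_aeval, ← abs_aeval] at h2
    exact h2

/-- **Finite-state prediction of the digits of `ζ(3)`, `ζ(3) / π³`, `γ`, `γ + a π`.**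
(1) Let `n ≥ 0`, `S` a finite set of integers and `α_k ≠ 0` (`k ∈ S`) real algebraic numbers. There is
`μ > 1` and for every real `t ≠ 0` there is `C` such that: (a) for any two of the numbers `α_k t π^k`,
`k ∈ S`, the bound for the errors holds (with `μ, C`, for all nonconstant polynomial expressions of degree
at most `n`); (b) for all `Λ > 0`, `σ` and `H ≥ 1` at most one of the numbers `α_k t π^k`, `k ∈ S`, is predicted
with less than `((log Λ - log (2 σ + log H)) / log μ - C) / 2` errors.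
(2) The same for the numbers `t + a π`, `a ∈ S`, `S` a finite set of real algebraic numbers, with `C`
uniform for `|t| ≤ T`.
(3) In particular for every `n` the bound holds (with some `μ > 1`, `C`) for the pair `ζ(3), ζ(3) / π³`
and for the pair `γ + a π, γ + b π`, `a ≠ b` real algebraic numbers, `γ` Euler's constant. -/
theorem result :
    (∀ (n : ℕ) (S : Finset ℤ) (α : ℤ → ℝ), (∀ k ∈ S, IsAlgebraic ℚ (α k) ∧ α k ≠ 0) →
      ∃ μ : ℝ, 1 < μ ∧ ∀ t : ℝ, t ≠ 0 → ∃ C : ℝ,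
        (∀ k ∈ S, ∀ l ∈ S, k ≠ l →
          Bound n μ C (t * (α k * Real.pi ^ k)) (t * (α l * Real.pi ^ l))) ∧
        ∀ Λ σ H : ℝ, 0 < Λ → 1 ≤ H →
          {k : ℤ | k ∈ S ∧ Predicted n H Λ σ (threshold μ C H Λ σ)
            (t * (α k * Real.pi ^ k))}.Subsingleton) ∧
    (∀ (n : ℕ) (S : Finset ℝ), (∀ a ∈ S, IsAlgebraic ℚ a) →
      ∃ μ : ℝ, 1 < μ ∧ ∀ T : ℝ, ∃ C : ℝ, ∀ t : ℝ, |t| ≤ T →
        (∀ a ∈ S, ∀ b ∈ S, a ≠ b → Bound n μ C (t + a * Real.pi) (t + b * Real.pi)) ∧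
        ∀ Λ σ H : ℝ, 0 < Λ → 1 ≤ H →
          {a : ℝ | a ∈ S ∧ Predicted n H Λ σ (threshold μ C H Λ σ)
            (t + a * Real.pi)}.Subsingleton) ∧
    (∀ n : ℕ, ∃ μ C : ℝ, 1 < μ ∧ Bound n μ C zeta3 (zeta3 / Real.pi ^ 3)) ∧
    (∀ (n : ℕ) (a b : ℝ), IsAlgebraic ℚ a → IsAlgebraic ℚ b → a ≠ b → ∃ μ C : ℝ, 1 < μ ∧
      Bound n μ C (Real.eulerMascheroniConstant + a * Real.pi)
        (Real.eulerMascheroniConstant + b * Real.pi)) := by
  refine ⟨fun n S α hα => ?_, fun n S hα => ?_, fun n => ?_, fun n a b ha hb hab => ?_⟩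
  · obtain ⟨μ, hμ, h⟩ := mul_family n S α hα
    refine ⟨μ, hμ, fun t ht => ?_⟩
    obtain ⟨C, hC⟩ := h t ht
    refine ⟨C, hC, fun Λ σ H hΛ hH k hk l hl => ?_⟩
    by_contra hne
    exact not_both hμ (hC k hk.1 l hl.1 hne) hH hΛ hk.2 hl.2
  · obtain ⟨μ, hμ, h⟩ := add_family n S hα
    refine ⟨μ, hμ, fun T => ?_⟩
    obtain ⟨C, hC⟩ := h T
    refine ⟨C, fun t ht => ⟨hC t ht, fun Λ σ H hΛ hH a ha b hb => ?_⟩⟩
    by_contra hne
    exact not_both hμ (hC t ht a ha.1 b hb.1 hne) hH hΛ ha.2 hb.2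
  · obtain ⟨μ, hμ, h⟩ := mul_family n {0, -3} (fun _ => 1) (fun k _ => ⟨isAlgebraic_one, one_ne_zero⟩)
    obtain ⟨C, hC⟩ := h zeta3 zeta3_pos.ne'
    have h1 := hC 0 (by simp) (-3) (by simp) (by norm_num)
    have e1 : zeta3 * (1 * Real.pi ^ (0 : ℤ)) = zeta3 := by simp
    have e2 : zeta3 * (1 * Real.pi ^ (-3 : ℤ)) = zeta3 / Real.pi ^ 3 := by
      rw [one_mul, zpow_neg, ← div_eq_mul_inv]
      norm_cast
    rw [e1, e2] at h1
    exact ⟨μ, C, hμ, h1⟩
  · obtain ⟨μ, hμ, h⟩ := add_family n {a, b} (fun k hk => by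
      rw [Finset.mem_insert, Finset.mem_singleton] at hk
      rcases hk with rfl | rfl
      · exact ha
      · exact hb)
    obtain ⟨C, hC⟩ := h |Real.eulerMascheroniConstant|
    exact ⟨μ, C, hμ, hC _ le_rfl a (by simp) b (by simp) hab⟩

end Pool.Agent.Results.MP_e48a95_nt.PredictionSeveralNumbers
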